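import Pool.Agent.Helper103.FlowDefs
import Pool.Agent.Helper103.Flow4

/-!
Jackson's conjecture on flow roots in (1,2) is false, already for simple graphs: there is a
simple 3-connected graph with 11 vertices and 27 edges, having vertices of odd degree and with
`|E| - |V| + 1 = 17` odd, whose flow polynomial has a root in `(1,2)`.

The graph: core vertices 0..4 with edges 02, 03, 04, 12, 13, 24; and three pairs of adjacent
vertices {5,6}, {7,8}, {9,10}, joined completely to {0,1,3}, {0,3,4}, {2,3,4} respectively.
-/

namespace Pool.Agent.Results.MP_a73859_co.JacksonFlowRoot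

open Pool.Agent.Helper103.Flow

theorem result :
    ∃ (G : SimpleGraph (Fin 11)) (_ : DecidableRel G.Adj),
      ThreeConnected G ∧
      ¬ Eulerian G ∧
      G.edgeFinset.card = 27 ∧
      Odd ((G.edgeFinset.card : ℤ) - (Fintype.card (Fin 11) : ℤ) + 1) ∧
      ∃ q : ℝ, 1 < q ∧ q < 2 ∧ flowPoly G q = 0 := by
  refine ⟨Gr, inferInstance, gr_threeConnected, gr_not_eulerian, gr_card, ?_, flow_root⟩
  rw [gr_card, Fintype.card_fin]
  exact ⟨8, by norm_num⟩

end Pool.Agent.Results.MP_a73859_co.JacksonFlowRoot
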